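import Pool.Agent.SetIntBlocked.Random

/-!
# The counting argument
-/

namespace Pool.Agent.SetIntBlocked

open Finset

/-- The intersections of the translates of two functions have total size `k * L`. -/
theorem sum_inter {k L : ℕ} [NeZero L] (g g' : Fin k → ZMod L) :
    ∑ a : ZMod L, ∑ b : ZMod L, (tr g a ∩ tr g' b).card = k * L := by
  classical
  have h1 : ∀ a b : ZMod L, (tr g a ∩ tr g' b).card
      = ∑ p : Fin k, if b = g p + a - g' p then 1 else 0 := by
    intro a b
    rw [← card_filter]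
    symm
    refine card_bij (fun p _ => (p, g p + a)) ?_ ?_ ?_
    · intro p hp
      simp only [mem_filter, mem_univ, true_and] at hp
      rw [mem_inter, mem_tr, mem_tr]
      refine ⟨rfl, ?_⟩
      simp only
      rw [hp]; ring
    · intro p _ q _ h
      exact congrArg Prod.fst h
    · intro x hx
      rw [mem_inter, mem_tr, mem_tr] at hx
      refine ⟨x.1, ?_, ?_⟩
      · simp only [mem_filter, mem_univ, true_and]
        rw [← hx.1, hx.2]; ring
      · ext <;> simp [hx.1]
  simp_rw [h1]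
  have h2 : ∀ a : ZMod L, ∑ b : ZMod L, ∑ p : Fin k, (if b = g p + a - g' p then 1 else 0) = k := by
    intro a
    rw [sum_comm]
    simp
  simp_rw [h2]
  rw [sum_const, card_univ, ZMod.card, smul_eq_mul, mul_comm]

open Classical in
/-- The counting argument. -/
theorem count {k L B m h t T C s : ℕ} [NeZero L] (hC : 1 ≤ C) (hk : k = L * T)
    (hh : 4 * C * h ≤ B)
    (f : Fin m → Fin k → ZMod L)
    (hf : ∀ E : Finset (Fin k × ZMod L), E.card ≤ B →
      (univ.filter (fun i => ∃ a, h ≤ (E ∩ tr (f i) a).card)).card < t)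
    (E : Fin s → Finset (Fin k × ZMod L)) (hE : ∀ q, (E q).card ≤ B)
    (hQ : ∀ i j a b, i ≠ j → ∃ Q : Finset (Fin s),
      Q.card * B ≤ C * (T + (tr (f i) a ∩ tr (f j) b).card) ∧
      ∀ x ∈ tr (f i) a ∩ tr (f j) b, ∃ q ∈ Q, x ∈ E q) :
    T * (m * (m - 1)) ≤ 2 * (s * B) * t ^ 2 := by
  have hLpos : 0 < L := NeZero.pos L
  -- indicator of usefulness
  let u : Fin s → Fin m → ZMod L → ℕ := fun q i a => if h ≤ (E q ∩ tr (f i) a).card then 1 else 0
  have hone : ∀ i j a b, i ≠ j →
      3 * (tr (f i) a ∩ tr (f j) b).card ≤ T + 4 * B * ∑ q, u q i a * u q j b := by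
    intro i j a b hij
    obtain ⟨Q, hQ1, hQ2⟩ := hQ i j a b hij
    set S := tr (f i) a ∩ tr (f j) b with hS
    have h1 : S.card ≤ ∑ q ∈ Q, (E q ∩ S).card := by
      have : S ⊆ Q.biUnion (fun q => E q ∩ S) := by
        intro x hx
        obtain ⟨q, hq, hxq⟩ := hQ2 x hx
        rw [mem_biUnion]
        exact ⟨q, hq, mem_inter.2 ⟨hxq, hx⟩⟩
      exact (card_le_card this).trans card_biUnion_le
    have h2 : ∀ q ∈ Q, (E q ∩ S).card ≤ h + B * (u q i a * u q j b) := by
      intro q _
      by_cases hq : h ≤ (E q ∩ S).card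
      · have e1 : h ≤ (E q ∩ tr (f i) a).card :=
          hq.trans (card_le_card (inter_subset_inter_left (hS ▸ inter_subset_left)))
        have e2 : h ≤ (E q ∩ tr (f j) b).card :=
          hq.trans (card_le_card (inter_subset_inter_left (hS ▸ inter_subset_right)))
        have e3 : (E q ∩ S).card ≤ B := (card_le_card inter_subset_left).trans (hE q)
        simp only [u, if_pos e1, if_pos e2]
        omega
      · push Not at hq
        exact (le_of_lt hq).trans (Nat.le_add_right _ _)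
    have h3 : ∑ q ∈ Q, (E q ∩ S).card ≤ Q.card * h + B * ∑ q, u q i a * u q j b := by
      refine (sum_le_sum h2).trans ?_
      rw [sum_add_distrib, sum_const, smul_eq_mul, ← mul_sum]
      apply Nat.add_le_add_left
      apply Nat.mul_le_mul_left
      exact sum_le_sum_of_subset (subset_univ _)
    have h4 : C * (4 * (Q.card * h)) ≤ C * (T + S.card) := by
      calc C * (4 * (Q.card * h)) = Q.card * (4 * C * h) := by ring
        _ ≤ Q.card * B := Nat.mul_le_mul_left _ hh
        _ ≤ _ := hQ1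
    have h5 : 4 * (Q.card * h) ≤ T + S.card := Nat.le_of_mul_le_mul_left h4 (by omega)
    have h6 := h1.trans h3
    have h7 : 4 * B * ∑ q, u q i a * u q j b = 4 * (B * ∑ q, u q i a * u q j b) := by ring
    rw [h7]
    omega
  -- sum over `a, b`
  have htwo : ∀ i j, i ≠ j →
      T * L ^ 2 ≤ 2 * B * ∑ a, ∑ b, ∑ q, u q i a * u q j b := by
    intro i j hij
    have h1 : ∑ a : ZMod L, ∑ b : ZMod L, 3 * (tr (f i) a ∩ tr (f j) b).card
        ≤ ∑ a : ZMod L, ∑ b : ZMod L, (T + 4 * B * ∑ q, u q i a * u q j b) :=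
      sum_le_sum (fun a _ => sum_le_sum (fun b _ => hone i j a b hij))
    have h2 : ∑ a : ZMod L, ∑ b : ZMod L, 3 * (tr (f i) a ∩ tr (f j) b).card = 3 * (k * L) := by
      rw [← sum_inter (f i) (f j)]
      simp_rw [← mul_sum]
    have h3 : ∑ a : ZMod L, ∑ b : ZMod L, (T + 4 * B * ∑ q, u q i a * u q j b)
        = T * L ^ 2 + 4 * B * ∑ a, ∑ b, ∑ q, u q i a * u q j b := by
      simp_rw [sum_add_distrib, ← mul_sum]
      congr 1
      simp only [sum_const, card_univ, ZMod.card, smul_eq_mul]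
      ring
    rw [h2, h3, hk] at h1
    have h4 : 3 * (L * T * L) = 3 * (T * L ^ 2) := by ring
    rw [h4] at h1
    have h5 : 4 * B * ∑ a, ∑ b, ∑ q, u q i a * u q j b
        = 2 * (2 * B * ∑ a, ∑ b, ∑ q, u q i a * u q j b) := by ring
    rw [h5] at h1
    omega
  -- each block is useful for few `(i, a)`
  have hthree : ∀ q, ∑ i, ∑ a, u q i a ≤ t * L := by
    intro q
    have h1 : ∀ i, ∑ a, u q i a ≤ if (∃ a, h ≤ (E q ∩ tr (f i) a).card) then L else 0 := by
      intro i
      split_ifs with hi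
      · calc ∑ a, u q i a ≤ ∑ a : ZMod L, 1 := sum_le_sum (fun a _ => by
              simp only [u]; split_ifs <;> omega)
          _ = L := by simp [ZMod.card]
      · rw [sum_eq_zero]
        intro a _
        simp only [u]
        rw [if_neg]
        intro ha
        exact hi ⟨a, ha⟩
    refine (sum_le_sum (fun i _ => h1 i)).trans ?_
    rw [← sum_filter, sum_const, smul_eq_mul]
    exact Nat.mul_le_mul_right _ (hf (E q) (hE q)).le
  -- sum over all ordered pairs
  have hfour : T * L ^ 2 * (m * (m - 1)) ≤ 2 * B * (s * (t * L) ^ 2) := by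
    have h1 : ∑ x ∈ (univ : Finset (Fin m)).offDiag, T * L ^ 2
        ≤ ∑ x ∈ (univ : Finset (Fin m)).offDiag,
          2 * B * ∑ a, ∑ b, ∑ q, u q x.1 a * u q x.2 b := by
      refine sum_le_sum (fun x hx => ?_)
      rw [mem_offDiag] at hx
      exact htwo x.1 x.2 hx.2.2
    rw [sum_const, offDiag_card, card_univ, Fintype.card_fin, smul_eq_mul, ← mul_sum] at h1
    have h2 : ∑ x ∈ (univ : Finset (Fin m)).offDiag, ∑ a, ∑ b, ∑ q, u q x.1 a * u q x.2 b
        ≤ ∑ x : Fin m × Fin m, ∑ a, ∑ b, ∑ q, u q x.1 a * u q x.2 b :=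
      sum_le_sum_of_subset (subset_univ _)
    have h3 : ∑ x : Fin m × Fin m, ∑ a, ∑ b, ∑ q, u q x.1 a * u q x.2 b
        = ∑ q, (∑ i, ∑ a, u q i a) ^ 2 := by
      rw [Fintype.sum_prod_type]
      have e1 : ∀ i j : Fin m, ∑ a, ∑ b, ∑ q, u q i a * u q j b
          = ∑ q, (∑ a, u q i a) * (∑ b, u q j b) := by
        intro i j
        simp_rw [sum_mul_sum]
        rw [sum_comm (s := (univ : Finset (Fin s)))]
        refine sum_congr rfl (fun a _ => ?_)
        rw [sum_comm]
      simp_rw [e1]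
      have e2 : ∀ q, (∑ i, ∑ a, u q i a) ^ 2 = ∑ i, ∑ j, (∑ a, u q i a) * (∑ b, u q j b) := by
        intro q
        rw [sq, sum_mul_sum]
      simp_rw [e2]
      rw [sum_comm (s := (univ : Finset (Fin s)))]
      refine sum_congr rfl (fun i _ => ?_)
      rw [sum_comm]
    have h4 : ∑ q, (∑ i, ∑ a, u q i a) ^ 2 ≤ s * (t * L) ^ 2 := by
      calc ∑ q, (∑ i, ∑ a, u q i a) ^ 2 ≤ ∑ q : Fin s, (t * L) ^ 2 :=
            sum_le_sum (fun q _ => Nat.pow_le_pow_left (hthree q) 2)
        _ = s * (t * L) ^ 2 := by simp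
    have h5 : m * m - m = m * (m - 1) := by
      rw [Nat.mul_sub, mul_one]
    rw [h5] at h1
    calc T * L ^ 2 * (m * (m - 1)) = m * (m - 1) * (T * L ^ 2) := by ring
      _ ≤ _ := h1
      _ ≤ 2 * B * (s * (t * L) ^ 2) := Nat.mul_le_mul_left _ (h2.trans (h3 ▸ h4))
  have h6 : (T * (m * (m - 1))) * L ^ 2 ≤ (2 * (s * B) * t ^ 2) * L ^ 2 := by
    calc (T * (m * (m - 1))) * L ^ 2 = T * L ^ 2 * (m * (m - 1)) := by ring
      _ ≤ _ := hfour
      _ = _ := by ring
  exact Nat.le_of_mul_le_mul_right h6 (by positivity)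

end Pool.Agent.SetIntBlocked
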