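import Mathlib

/-!
# Blocked memories with indivisible elements for set intersection queries
-/

namespace Pool.Agent.SetIntBlocked

/-- `F` is a family of finite sets with elements in `{0, …, N-1}` and of total size exactly `N`. -/
def IsFamily (N : ℕ) {m : ℕ} (F : Fin m → Finset ℕ) : Prop :=
  (∀ i, F i ⊆ Finset.range N) ∧ ∑ i, (F i).card = N

/-- A memory of `s` blocks of `B` words that serves every query on the family `F` in time
`C (T + op)`.  The block `q` holds the elements `cell q`, at most `B` of them (how they are chosen,
and what else the memory holds, is arbitrary).  For every query `(i, j)` there is a set `Q` of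
blocks that contain together all elements of `F i ∩ F j`, and reading the blocks of `Q`, at a cost
of `B` for each, costs at most `C (T + op)`; how `Q` is found is not charged. -/
def BlockedStore (C T B s : ℕ) {m : ℕ} (F : Fin m → Finset ℕ) : Prop :=
  ∃ cell : Fin s → Finset ℕ, (∀ q, (cell q).card ≤ B) ∧
    ∀ i j, i ≠ j → ∃ Q : Finset (Fin s),
      Q.card * B ≤ C * (T + (F i ∩ F j).card) ∧ ∀ x ∈ F i ∩ F j, ∃ q ∈ Q, x ∈ cell q

/-- Every family of total size exactly `N` has such a memory. -/
def Solvable (N C T B s : ℕ) : Prop :=
  ∀ (m : ℕ) (F : Fin m → Finset ℕ), IsFamily N F → BlockedStore C T B s F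

end Pool.Agent.SetIntBlocked
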