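import Pool.Agent.SetIntBlocked.Defs
import Pool.Agent.SetIntBlocked.Count

/-!
# The lower bound
-/

namespace Pool.Agent.SetIntBlocked

open Finset

/-- Passage to families indexed by an arbitrary finite type. -/
theorem of_fintype {N C T B s : ℕ} (H : Solvable N C T B s) {ι : Type} [Fintype ι]
    (G : ι → Finset ℕ) (h1 : ∀ i, G i ⊆ range N) (h2 : ∑ i, (G i).card = N) :
    ∃ cell : Fin s → Finset ℕ, (∀ q, (cell q).card ≤ B) ∧
      ∀ i j, i ≠ j → ∃ Q : Finset (Fin s),
        Q.card * B ≤ C * (T + (G i ∩ G j).card) ∧ ∀ x ∈ G i ∩ G j, ∃ q ∈ Q, x ∈ cell q := by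
  obtain ⟨cell, hc, hq⟩ := H (Fintype.card ι) (fun j => G ((Fintype.equivFin ι).symm j))
    ⟨fun i => h1 _, by
      rw [← h2]
      exact Equiv.sum_comp (Fintype.equivFin ι).symm (fun i => (G i).card)⟩
  refine ⟨cell, hc, fun i j hij => ?_⟩
  have := hq (Fintype.equivFin ι i) (Fintype.equivFin ι j) (fun h => hij ((Fintype.equivFin ι).injective h))
  simpa using this

/-- The space is at least `N / 2`. -/
theorem half_le {N C T B s : ℕ} (H : Solvable N C T B s) : N / 2 ≤ s * B := by
  obtain ⟨cell, hc, hq⟩ := of_fintype H (ι := Fin 3)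
    ![range (N / 2), range (N / 2), range (N - 2 * (N / 2))]
    (by
      intro i
      fin_cases i
      · exact range_subset_range.2 (Nat.div_le_self _ _)
      · exact range_subset_range.2 (Nat.div_le_self _ _)
      · exact range_subset_range.2 (Nat.sub_le _ _))
    (by
      rw [Fin.sum_univ_three]
      simp only [Matrix.cons_val, card_range]
      omega)
  obtain ⟨Q, _, hQ⟩ := hq 0 1 (by decide)
  simp only [Matrix.cons_val, inter_self, mem_range] at hQ
  have h1 : range (N / 2) ⊆ Q.biUnion cell := by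
    intro x hx
    rw [mem_range] at hx
    obtain ⟨q, hq, hx⟩ := hQ x hx
    exact mem_biUnion.2 ⟨q, hq, hx⟩
  calc N / 2 = (range (N / 2)).card := (card_range _).symm
    _ ≤ (Q.biUnion cell).card := card_le_card h1
    _ ≤ ∑ q ∈ Q, (cell q).card := card_biUnion_le
    _ ≤ ∑ q ∈ Q, B := sum_le_sum (fun q _ => hc q)
    _ = Q.card * B := by rw [sum_const, smul_eq_mul]
    _ ≤ s * B := Nat.mul_le_mul_right _ (by
        have := card_le_univ Q
        rwa [Fintype.card_fin] at this)

/-- The counting bound for the random family. -/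
theorem family_bound {N C T B s k L m h t : ℕ} [NeZero L] (H : Solvable N C T B s)
    (hC : 1 ≤ C) (hT : 1 ≤ T) (hB : 1 ≤ B) (hh : 1 ≤ h) (ht : 1 ≤ t) (hk : k = L * T)
    (hhB : 4 * C * h ≤ B) (h1 : k * L < 2 ^ t) (h2 : m * 4 ^ B ≤ L ^ (h - 1))
    (hkN : k * L ≤ N) (hmN : m * (k * L) ≤ N) :
    T * (m * (m - 1)) ≤ 2 * (s * B) * t ^ 2 := by
  classical
  have hLpos : 0 < L := NeZero.pos L
  have hkpos : 1 ≤ k := by rw [hk]; exact Nat.mul_pos hLpos hT
  obtain ⟨f, hf⟩ := exists_good' (k := k) (L := L) (m := m) hkpos hB hh ht h1 h2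
  -- the encoding of the universe
  let φ : Fin k × ZMod L ↪ ℕ :=
    ⟨fun x => (Fintype.equivFin (Fin k × ZMod L) x).val, fun x y hxy => by
      exact (Fintype.equivFin (Fin k × ZMod L)).injective (Fin.ext hxy)⟩
  have hφ : ∀ x, φ x < N := by
    intro x
    have h3 : φ x < Fintype.card (Fin k × ZMod L) := (Fintype.equivFin (Fin k × ZMod L) x).isLt
    rw [Fintype.card_prod, ZMod.card, Fintype.card_fin] at h3
    omega
  let G : Option (Fin m × ZMod L) → Finset ℕ := fun o =>
    match o with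
    | none => range (N - m * (k * L))
    | some (i, a) => (tr (f i) a).map φ
  obtain ⟨cell, hc, hq⟩ := of_fintype H G
    (by
      intro o
      rcases o with _ | ⟨i, a⟩
      · exact range_subset_range.2 (Nat.sub_le _ _)
      · intro x hx
        simp only [G, mem_map] at hx
        obtain ⟨y, _, rfl⟩ := hx
        exact mem_range.2 (hφ y))
    (by
      rw [Fintype.sum_option]
      simp only [G, card_range, card_map, card_tr]
      rw [sum_const, card_univ, Fintype.card_prod, ZMod.card, Fintype.card_fin, smul_eq_mul]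
      have : m * L * k = m * (k * L) := by ring
      omega)
  refine count (k := k) (L := L) (B := B) (m := m) (h := h) (t := t) (T := T) (C := C) (s := s)
    hC hk hhB f hf (fun q => univ.filter (fun x => φ x ∈ cell q)) ?_ ?_
  · intro q
    refine le_trans ?_ (hc q)
    refine card_le_card_of_injOn φ ?_ (φ.injective.injOn)
    intro x hx
    simpa using hx
  · intro i j a b hij
    obtain ⟨Q, hQ1, hQ2⟩ := hq (some (i, a)) (some (j, b)) (by
      intro h
      simp only [Option.some.injEq, Prod.mk.injEq] at h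
      exact hij h.1)
    refine ⟨Q, ?_, ?_⟩
    · have : (G (some (i, a)) ∩ G (some (j, b))).card = (tr (f i) a ∩ tr (f j) b).card := by
        simp only [G]
        rw [← map_inter, card_map]
      rwa [this] at hQ1
    · intro x hx
      rw [mem_inter] at hx
      obtain ⟨q, hqQ, hxq⟩ := hQ2 (φ x) (by
        rw [mem_inter]
        exact ⟨mem_map_of_mem φ hx.1, mem_map_of_mem φ hx.2⟩)
      exact ⟨q, hqQ, by simpa using hxq⟩

/-- The lower bound in natural numbers. -/
theorem nat_bound {N C T B s : ℕ} (H : Solvable N C T B s) (hN : 2 ≤ N)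
    (hC : 1 ≤ C) (hT : 1 ≤ T) (hB : 8 * C ≤ B) :
    N ^ 2 ≤ 10 * (2 ^ (12 * C * ((Nat.log 2 N + 1) / B + 3))) ^ 4 * T * (Nat.log 2 N + 1) ^ 2
      * (s * B) := by
  set n := Nat.log 2 N with hn
  set lam := 12 * C * ((n + 1) / B + 3) with hlam
  set L := 2 ^ lam with hL
  have hLpos : 0 < L := by positivity
  have : NeZero L := ⟨hLpos.ne'⟩
  have hNlt : N < 2 ^ (n + 1) := Nat.lt_pow_succ_log_self (by norm_num) N
  have hhalf := half_le H
  have hBpos : 0 < B := by omega
  by_cases hcase : N < 2 * (L * T * L)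
  · have h1 : N ≤ 3 * (s * B) := by omega
    have h2 : L * T * L ≤ L ^ 4 * T := by
      calc L * T * L = L ^ 2 * T := by ring
        _ ≤ L ^ 4 * T := Nat.mul_le_mul_right _ (Nat.pow_le_pow_right hLpos (by norm_num))
    calc N ^ 2 = N * N := by ring
      _ ≤ (2 * (L ^ 4 * T)) * (3 * (s * B)) := Nat.mul_le_mul (by omega) h1
      _ = 6 * L ^ 4 * T * 1 * (s * B) := by ring
      _ ≤ 10 * L ^ 4 * T * (n + 1) ^ 2 * (s * B) := by
          apply Nat.mul_le_mul_right
          apply Nat.mul_le_mul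
          · apply Nat.mul_le_mul_right
            apply Nat.mul_le_mul_right
            norm_num
          · exact Nat.one_le_pow _ _ (by omega)
  push Not at hcase
  set k := L * T with hk
  set m := N / (k * L) with hm
  have hkLpos : 0 < k * L := by positivity
  have hm2 : 2 ≤ m := by
    rw [hm, Nat.le_div_iff_mul_le hkLpos]
    exact hcase
  have hmN : m * (k * L) ≤ N := Nat.div_mul_le_self _ _
  have hkN : k * L ≤ N := by
    calc k * L ≤ m * (k * L) := Nat.le_mul_of_pos_left _ (by omega)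
      _ ≤ N := hmN
  set h := B / (4 * C) with hh
  have h4C : 0 < 4 * C := by omega
  have hh2 : 2 ≤ h := by
    rw [hh, Nat.le_div_iff_mul_le h4C]
    omega
  have hhB : 4 * C * h ≤ B := by
    rw [hh]
    exact Nat.mul_div_le _ _
  have hhB2 : B < 4 * C * (h + 1) := by
    rw [hh]
    exact Nat.lt_mul_div_succ _ h4C
  have hh3 : B ≤ 12 * C * (h - 1) := by
    have h1 : 4 * C * (h + 1) ≤ 12 * C * (h - 1) := by
      calc 4 * C * (h + 1) ≤ 4 * C * (3 * (h - 1)) := Nat.mul_le_mul_left _ (by omega)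
        _ = 12 * C * (h - 1) := by ring
    omega
  have hlamh : (n + 1) + 2 * B ≤ lam * (h - 1) := by
    have h1 : n + 1 < B * ((n + 1) / B + 1) := Nat.lt_mul_div_succ _ hBpos
    calc (n + 1) + 2 * B ≤ ((n + 1) / B + 3) * B := by nlinarith [h1]
      _ ≤ ((n + 1) / B + 3) * (12 * C * (h - 1)) := Nat.mul_le_mul_left _ hh3
      _ = lam * (h - 1) := by rw [hlam]; ring
  have hmL : m * 4 ^ B ≤ L ^ (h - 1) := by
    have h1 : m ≤ 2 ^ (n + 1) := (Nat.div_le_self _ _).trans hNlt.le
    calc m * 4 ^ B ≤ 2 ^ (n + 1) * 4 ^ B := Nat.mul_le_mul_right _ h1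
      _ = 2 ^ ((n + 1) + 2 * B) := by
          rw [pow_add 2 (n + 1) (2 * B), pow_mul]
          norm_num
      _ ≤ 2 ^ (lam * (h - 1)) := Nat.pow_le_pow_right (by norm_num) hlamh
      _ = L ^ (h - 1) := by rw [hL, ← pow_mul]
  have hfb := family_bound (N := N) (C := C) (T := T) (B := B) (s := s) (k := k) (L := L) (m := m)
    (h := h) (t := n + 1) H hC hT hBpos (by omega) (by omega) hk hhB (lt_of_le_of_lt hkN hNlt) hmL
    hkN hmN
  have hNm : N < (m + 1) * (k * L) := by
    rw [hm, mul_comm]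
    exact Nat.lt_mul_div_succ N hkLpos
  have hmm : (m + 1) ^ 2 ≤ 5 * (m * (m - 1)) := by
    obtain ⟨r, hr⟩ : ∃ r, m = r + 2 := ⟨m - 2, by omega⟩
    rw [hr]
    have : r + 2 - 1 = r + 1 := by omega
    rw [this]
    nlinarith
  calc N ^ 2 ≤ ((m + 1) * (k * L)) ^ 2 := Nat.pow_le_pow_left hNm.le 2
    _ = (m + 1) ^ 2 * (k * L) ^ 2 := by ring
    _ ≤ 5 * (m * (m - 1)) * (k * L) ^ 2 := Nat.mul_le_mul_right _ hmm
    _ = 5 * L ^ 4 * T * (T * (m * (m - 1))) := by rw [hk]; ring
    _ ≤ 5 * L ^ 4 * T * (2 * (s * B) * (n + 1) ^ 2) := Nat.mul_le_mul_left _ hfb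
    _ = 10 * L ^ 4 * T * (n + 1) ^ 2 * (s * B) := by ring

end Pool.Agent.SetIntBlocked
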