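import Mathlib

/-!
# Random translates: a good choice exists

For `f i : Fin k → ZMod L` (`i < m`) let `S f i s = {(p, f i p + s)}`.  For a good choice of `f`
every set of at most `B` points meets at least `h` points of `S f i s` (for some `s`) for fewer
than `t` indices `i`.
-/

namespace Pool.Agent.SetIntBlocked

open Finset

/-- The set `{(p, g p + s)}`. -/
def tr {k L : ℕ} [NeZero L] (g : Fin k → ZMod L) (s : ZMod L) : Finset (Fin k × ZMod L) :=
  univ.image (fun p => (p, g p + s))

theorem mem_tr {k L : ℕ} [NeZero L] (g : Fin k → ZMod L) (s : ZMod L) (x : Fin k × ZMod L) :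
    x ∈ tr g s ↔ x.2 = g x.1 + s := by
  unfold tr
  simp only [mem_image, mem_univ, true_and]
  constructor
  · rintro ⟨p, rfl⟩; rfl
  · intro h; exact ⟨x.1, by ext <;> simp [h]⟩

theorem card_tr {k L : ℕ} [NeZero L] (g : Fin k → ZMod L) (s : ZMod L) : (tr g s).card = k := by
  unfold tr
  rw [card_image_of_injective, card_univ, Fintype.card_fin]
  intro a b h
  simpa using congrArg Prod.fst h

open Classical in
/-- The functions that are bad for `e`. -/
noncomputable def bad {k L B : ℕ} [NeZero L] (h : ℕ) (e : Fin B → Fin k × ZMod L) :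
    Finset (Fin k → ZMod L) :=
  univ.filter (fun g => ∃ s, h ≤ (univ.filter (fun p : Fin k => ∃ b, e b = (p, g p + s))).card)

open Classical in
theorem card_fix {k L B : ℕ} [NeZero L] (e : Fin B → Fin k × ZMod L) (s : ZMod L)
    (J : Finset (Fin B)) :
    (univ.filter (fun g : Fin k → ZMod L => ∀ b ∈ J, (e b).2 = g (e b).1 + s)).card
      ≤ L ^ (k - (J.image (fun b => (e b).1)).card) := by
  set P := J.image (fun b => (e b).1) with hP
  -- choose for every `p ∈ P` a `b`
  have hc : ∀ p : Fin k, p ∈ P → ∃ b ∈ J, (e b).1 = p := by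
    intro p hp
    simpa [hP] using hp
  choose b hb1 hb2 using hc
  have hsub : (univ.filter (fun g : Fin k → ZMod L => ∀ b ∈ J, (e b).2 = g (e b).1 + s)) ⊆
      Fintype.piFinset (fun p : Fin k => if hp : p ∈ P then {(e (b p hp)).2 - s} else univ) := by
    intro g hg
    rw [Fintype.mem_piFinset]
    intro p
    simp only [mem_filter, mem_univ, true_and] at hg
    by_cases hp : p ∈ P
    · rw [dif_pos hp, mem_singleton]
      have h1 := hg (b p hp) (hb1 p hp)
      rw [hb2 p hp] at h1
      rw [h1]; ring
    · rw [dif_neg hp]; exact mem_univ _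
  refine (card_le_card hsub).trans ?_
  rw [Fintype.card_piFinset]
  have h2 : ∀ p : Fin k, (if hp : p ∈ P then ({(e (b p hp)).2 - s} : Finset (ZMod L))
      else univ).card = if p ∈ P then 1 else L := by
    intro p
    split_ifs
    · simp
    · simp [ZMod.card]
  rw [Finset.prod_congr rfl (fun p _ => h2 p), Finset.prod_ite]
  simp only [prod_const_one, one_mul, prod_const]
  apply Nat.pow_le_pow_right (NeZero.pos L)
  have h3 : (univ.filter (fun p : Fin k => p ∉ P)) = Pᶜ := by
    ext p; simp
  rw [h3, card_compl, Fintype.card_fin]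

open Classical in
theorem card_bad {k L B : ℕ} [NeZero L] (h : ℕ) (e : Fin B → Fin k × ZMod L) :
    (bad h e).card ≤ L * (2 ^ B * L ^ (k - h)) := by
  have hsub : bad h e ⊆ (univ : Finset (ZMod L)).biUnion (fun s =>
      ((univ : Finset (Finset (Fin B))).filter
        (fun J => (J.image (fun b => (e b).1)).card = h)).biUnion (fun J =>
        univ.filter (fun g : Fin k → ZMod L => ∀ b ∈ J, (e b).2 = g (e b).1 + s))) := by
    intro g hg
    unfold bad at hg
    simp only [mem_filter, mem_univ, true_and] at hg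
    obtain ⟨s, hs⟩ := hg
    obtain ⟨P, hP, hPc⟩ := exists_subset_card_eq hs
    simp only [mem_biUnion, mem_univ, true_and, mem_filter]
    refine ⟨s, univ.filter (fun b : Fin B => (e b).1 ∈ P ∧ (e b).2 = g (e b).1 + s), ?_, ?_⟩
    · rw [← hPc]
      congr 1
      ext p
      simp only [mem_image, mem_filter, mem_univ, true_and]
      constructor
      · rintro ⟨b, ⟨hb1, _⟩, rfl⟩; exact hb1
      · intro hp
        have := hP hp
        simp only [mem_filter, mem_univ, true_and] at this
        obtain ⟨b, hb⟩ := this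
        exact ⟨b, by rw [hb]; exact ⟨hp, rfl⟩, by rw [hb]⟩
    · intro b hb
      simp only [mem_filter, mem_univ, true_and] at hb
      exact hb.2
  refine (card_le_card hsub).trans ?_
  refine (card_biUnion_le).trans ?_
  have h1 : ∀ s ∈ (univ : Finset (ZMod L)), (((univ : Finset (Finset (Fin B))).filter
        (fun J => (J.image (fun b => (e b).1)).card = h)).biUnion (fun J =>
        univ.filter (fun g : Fin k → ZMod L => ∀ b ∈ J, (e b).2 = g (e b).1 + s))).card
        ≤ 2 ^ B * L ^ (k - h) := by
    intro s _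
    refine card_biUnion_le.trans ?_
    have h2 : ∀ J ∈ ((univ : Finset (Finset (Fin B))).filter
        (fun J => (J.image (fun b => (e b).1)).card = h)),
        (univ.filter (fun g : Fin k → ZMod L => ∀ b ∈ J, (e b).2 = g (e b).1 + s)).card
          ≤ L ^ (k - h) := by
      intro J hJ
      simp only [mem_filter, mem_univ, true_and] at hJ
      have := card_fix e s J
      rwa [hJ] at this
    refine (sum_le_sum h2).trans ?_
    rw [sum_const, smul_eq_mul]
    apply Nat.mul_le_mul_right
    refine (card_filter_le _ _).trans ?_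
    simp
  refine (sum_le_sum h1).trans ?_
  rw [sum_const, smul_eq_mul, card_univ, ZMod.card]

open Classical in
/-- Existence of a good choice. -/
theorem exists_good {k L B m h t : ℕ} [NeZero L] (hB : 1 ≤ B) (hh : 1 ≤ h) (ht : 1 ≤ t)
    (h1 : k * L < 2 ^ t) (h2 : m * 4 ^ B ≤ L ^ (h - 1)) :
    ∃ f : Fin m → Fin k → ZMod L, ∀ e : Fin B → Fin k × ZMod L,
      (univ.filter (fun i => f i ∈ bad h e)).card < t := by
  by_cases hk : k < h
  · refine ⟨fun _ _ => 0, fun e => ?_⟩
    rw [filter_eq_empty_iff.2, card_empty]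
    · omega
    · intro i _ hi
      unfold bad at hi
      simp only [mem_filter, mem_univ, true_and] at hi
      obtain ⟨s, hs⟩ := hi
      have := card_le_univ (univ.filter (fun p : Fin k => ∃ b, e b = (p, (0:ZMod L) + s)))
      rw [Fintype.card_fin] at this
      omega
  by_cases htm : m < t
  · refine ⟨fun _ _ => 0, fun e => ?_⟩
    refine lt_of_le_of_lt (card_le_univ _) ?_
    rwa [Fintype.card_fin]
  push Not at hk htm
  by_contra hcon
  push Not at hcon
  set A : ℕ := L ^ k with hA
  set a : ℕ := L * (2 ^ B * L ^ (k - h)) with ha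
  have hLpos : 0 < L := NeZero.pos L
  -- all functions are covered
  have hcov : (univ : Finset (Fin m → Fin k → ZMod L)) ⊆
      (univ : Finset (Fin B → Fin k × ZMod L)).biUnion (fun e =>
        (powersetCard t (univ : Finset (Fin m))).biUnion (fun I =>
          Fintype.piFinset (fun i => if i ∈ I then bad h e else univ))) := by
    intro f _
    obtain ⟨e, he⟩ := hcon f
    obtain ⟨I, hI, hIc⟩ := exists_subset_card_eq he
    simp only [mem_biUnion, mem_univ, true_and, mem_powersetCard]
    refine ⟨e, I, ⟨subset_univ _, hIc⟩, ?_⟩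
    rw [Fintype.mem_piFinset]
    intro i
    by_cases hi : i ∈ I
    · rw [if_pos hi]
      have := hI hi
      simpa using this
    · rw [if_neg hi]; exact mem_univ _
  have hcard := card_le_card hcov
  have hstep : ∀ e ∈ (univ : Finset (Fin B → Fin k × ZMod L)),
      ((powersetCard t (univ : Finset (Fin m))).biUnion (fun I =>
          Fintype.piFinset (fun i => if i ∈ I then bad h e else univ))).card
        ≤ m ^ t * (a ^ t * A ^ (m - t)) := by
    intro e _
    refine card_biUnion_le.trans ?_
    have h3 : ∀ I ∈ powersetCard t (univ : Finset (Fin m)),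
        (Fintype.piFinset (fun i => if i ∈ I then bad h e else univ)).card
          ≤ a ^ t * A ^ (m - t) := by
      intro I hI
      rw [mem_powersetCard] at hI
      rw [Fintype.card_piFinset]
      have h4 : ∀ i : Fin m, (if i ∈ I then bad h e else univ).card
          = if i ∈ I then (bad h e).card else A := by
        intro i
        split_ifs
        · rfl
        · rw [card_univ, Fintype.card_fun, ZMod.card, Fintype.card_fin]
      rw [Finset.prod_congr rfl (fun p _ => h4 p), Finset.prod_ite]
      simp only [prod_const]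
      have h5 : (univ.filter (fun i : Fin m => i ∈ I)) = I := by ext i; simp
      have h6 : (univ.filter (fun i : Fin m => i ∉ I)) = Iᶜ := by ext i; simp
      rw [h5, h6, card_compl, Fintype.card_fin, hI.2]
      exact Nat.mul_le_mul_right _ (Nat.pow_le_pow_left (card_bad h e) _)
    refine (sum_le_sum h3).trans ?_
    rw [sum_const, smul_eq_mul, card_powersetCard, card_univ, Fintype.card_fin]
    exact Nat.mul_le_mul_right _ (Nat.choose_le_pow m t)
  have hsum : A ^ m ≤ (k * L) ^ B * (m ^ t * (a ^ t * A ^ (m - t))) := by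
    have h7 := hcard.trans (card_biUnion_le.trans (sum_le_sum hstep))
    rw [sum_const, smul_eq_mul, card_univ, card_univ, Fintype.card_fun, Fintype.card_fun,
      Fintype.card_fun, Fintype.card_prod, ZMod.card, Fintype.card_fin, Fintype.card_fin,
      Fintype.card_fin] at h7
    exact h7
  have hAm : A ^ m = A ^ t * A ^ (m - t) := by
    rw [← pow_add]; congr 1; omega
  have hApos : 0 < A := by positivity
  have hfin : A ^ t ≤ (k * L) ^ B * (m * a) ^ t := by
    have h8 : A ^ t * A ^ (m - t) ≤ ((k * L) ^ B * (m * a) ^ t) * A ^ (m - t) := by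
      rw [← hAm, mul_pow]
      calc A ^ m ≤ _ := hsum
        _ = _ := by ring
    exact Nat.le_of_mul_le_mul_right h8 (by positivity)
  have hma : 2 ^ B * (m * a) ≤ A := by
    have hk1 : L ^ k = L ^ (h - 1) * (L * L ^ (k - h)) := by
      rw [← pow_succ', ← pow_add]; congr 1; omega
    rw [hA, hk1, ha]
    calc 2 ^ B * (m * (L * (2 ^ B * L ^ (k - h)))) = (m * (2 ^ B * 2 ^ B)) * (L * L ^ (k - h)) := by
          ring
      _ = (m * 4 ^ B) * (L * L ^ (k - h)) := by rw [← mul_pow]; norm_num
      _ ≤ _ := Nat.mul_le_mul_right _ h2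
  have hkL : (k * L) ^ B < (2 ^ B) ^ t := by
    rw [← pow_mul, mul_comm B t, pow_mul]
    exact Nat.pow_lt_pow_left h1 (by omega)
  have hmpos : 0 < m := by omega
  have hapos : 0 < a := by positivity
  have hlt : (k * L) ^ B * (m * a) ^ t < A ^ t := by
    calc (k * L) ^ B * (m * a) ^ t < (2 ^ B) ^ t * (m * a) ^ t :=
          Nat.mul_lt_mul_of_pos_right hkL (by positivity)
      _ = (2 ^ B * (m * a)) ^ t := (mul_pow _ _ _).symm
      _ ≤ A ^ t := Nat.pow_le_pow_left hma _
  omega

open Classical in
/-- The same for finsets. -/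
theorem exists_good' {k L B m h t : ℕ} [NeZero L] (hk : 1 ≤ k) (hB : 1 ≤ B) (hh : 1 ≤ h)
    (ht : 1 ≤ t) (h1 : k * L < 2 ^ t) (h2 : m * 4 ^ B ≤ L ^ (h - 1)) :
    ∃ f : Fin m → Fin k → ZMod L, ∀ E : Finset (Fin k × ZMod L), E.card ≤ B →
      (univ.filter (fun i => ∃ s, h ≤ (E ∩ tr (f i) s).card)).card < t := by
  obtain ⟨f, hf⟩ := exists_good (k := k) (L := L) (m := m) hB hh ht h1 h2
  refine ⟨f, fun E hE => ?_⟩
  -- enumerate `E`
  have hne : Nonempty (Fin k × ZMod L) := ⟨(⟨0, by omega⟩, 0)⟩
  let x0 : Fin k × ZMod L := Classical.choice hne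
  let e : Fin B → Fin k × ZMod L := fun b =>
    if hb : b.val < E.card then (E.equivFin.symm ⟨b.val, hb⟩).1 else x0
  have he : ∀ x ∈ E, ∃ b, e b = x := by
    intro x hx
    have hlt : (E.equivFin ⟨x, hx⟩).val < E.card := (E.equivFin ⟨x, hx⟩).isLt
    refine ⟨⟨(E.equivFin ⟨x, hx⟩).val, by omega⟩, ?_⟩
    simp only [e]
    rw [dif_pos hlt]
    simp
  refine lt_of_le_of_lt (card_le_card ?_) (hf e)
  intro i hi
  simp only [mem_filter, mem_univ, true_and] at hi ⊢
  obtain ⟨s, hs⟩ := hi
  unfold bad
  simp only [mem_filter, mem_univ, true_and]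
  refine ⟨s, hs.trans ?_⟩
  refine card_le_card_of_injOn (fun x => x.1) ?_ ?_
  · intro x hx
    simp only [coe_inter, Set.mem_inter_iff, mem_coe, mem_tr] at hx
    simp only [coe_filter, mem_univ, true_and, Set.mem_ofPred_eq]
    obtain ⟨b, hb⟩ := he x hx.1
    exact ⟨b, by rw [hb]; ext <;> simp [hx.2]⟩
  · intro x hx y hy hxy
    simp only [coe_inter, Set.mem_inter_iff, mem_coe, mem_tr] at hx hy
    have hxy' : x.1 = y.1 := hxy
    ext
    · rw [hxy']
    · rw [hx.2, hy.2, hxy']

end Pool.Agent.SetIntBlocked
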