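import Pool.Agent.SetIntBlocked.Main

/-!
# The lower bound in real form
-/

namespace Pool.Agent.SetIntBlocked

open Finset

theorem Solvable.mono {N C C' T B s : ℕ} (h : C ≤ C') (H : Solvable N C T B s) :
    Solvable N C' T B s := by
  intro m F hF
  obtain ⟨cell, h1, h2⟩ := H m F hF
  refine ⟨cell, h1, fun i j hij => ?_⟩
  obtain ⟨Q, hQ1, hQ2⟩ := h2 i j hij
  exact ⟨Q, hQ1.trans (Nat.mul_le_mul_right _ h), hQ2⟩

/-- The constant. -/
noncomputable def KK (C : ℕ) : ℝ := 40 * 2 ^ (144 * C)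

theorem KK_ge (C : ℕ) : (96 : ℝ) * C ≤ KK C := by
  unfold KK
  have h1 : ((144 * C : ℕ) : ℝ) ≤ 2 ^ (144 * C) := by
    have := (Nat.lt_two_pow_self (n := 144 * C)).le
    exact_mod_cast this
  push_cast at h1
  have h2 : (0:ℝ) ≤ C := Nat.cast_nonneg C
  linarith

theorem real_bound {N C T B s : ℕ} (H : Solvable N C T B s) (hN : 2 ≤ N)
    (hC : 1 ≤ C) (hT : 1 ≤ T) (hB : 1 ≤ B) :
    (N : ℝ) ^ 2 ≤ KK C * (N : ℝ) ^ (KK C / B) * T * (Real.logb 2 N) ^ 2 * (s * B) := by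
  have hNr : (2:ℝ) ≤ N := by exact_mod_cast hN
  have hTr : (1:ℝ) ≤ T := by exact_mod_cast hT
  have hBr : (1:ℝ) ≤ B := by exact_mod_cast hB
  have hCr : (1:ℝ) ≤ C := by exact_mod_cast hC
  have hK := KK_ge C
  have hhalf := half_le H
  have hsB : (1:ℝ) ≤ s * B := by
    have : 1 ≤ s * B := by omega
    exact_mod_cast this
  have hlog1 : 1 ≤ Real.logb 2 N := by
    rw [Real.le_logb_iff_rpow_le (by norm_num) (by linarith)]
    simpa using hNr
  by_cases hsmall : B < 8 * C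
  · -- trivial range
    have hBr2 : (B:ℝ) < 8 * C := by exact_mod_cast hsmall
    have hexp : (2:ℝ) ≤ KK C / B := by
      rw [le_div_iff₀ (by linarith)]
      linarith
    have h1 : (N:ℝ) ^ 2 ≤ (N:ℝ) ^ (KK C / B) := by
      rw [← Real.rpow_natCast]
      exact Real.rpow_le_rpow_of_exponent_le (by linarith) (by exact_mod_cast hexp)
    have h2 : (1:ℝ) ≤ KK C := by linarith
    have h3 : (1:ℝ) ≤ (Real.logb 2 N) ^ 2 := one_le_pow₀ hlog1
    have h0 : (0:ℝ) ≤ (N:ℝ) ^ (KK C / B) := by positivity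
    calc (N:ℝ) ^ 2 ≤ (N:ℝ) ^ (KK C / B) := h1
      _ = 1 * (N:ℝ) ^ (KK C / B) * 1 * 1 * 1 := by ring
      _ ≤ KK C * (N : ℝ) ^ (KK C / B) * T * (Real.logb 2 N) ^ 2 * (s * B) := by gcongr
  push Not at hsmall
  have hnat := nat_bound H hN hC hT hsmall
  set n := Nat.log 2 N with hn
  have hn1 : 1 ≤ n := by
    rw [hn]
    exact Nat.log_pos (by norm_num) hN
  have hnr : (1:ℝ) ≤ n := by exact_mod_cast hn1
  have hnlog : (n:ℝ) ≤ Real.logb 2 N := by
    rw [Real.le_logb_iff_rpow_le (by norm_num) (by linarith), Real.rpow_natCast]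
    exact_mod_cast Nat.pow_log_le_self 2 (by omega)
  have hcast : (N:ℝ) ^ 2 ≤ 10 * ((2:ℝ) ^ (12 * C * ((n + 1) / B + 3))) ^ 4 * T * ((n:ℝ) + 1) ^ 2
      * (s * B) := by exact_mod_cast hnat
  -- the power of two
  have hpow : ((2:ℝ) ^ (12 * C * ((n + 1) / B + 3))) ^ 4 ≤ 2 ^ (144 * C) * (N:ℝ) ^ (KK C / B) := by
    have e1 : ((2:ℝ) ^ (12 * C * ((n + 1) / B + 3))) ^ 4
        = 2 ^ (144 * C) * (2:ℝ) ^ (48 * C * ((n + 1) / B)) := by
      rw [← pow_mul, ← pow_add]
      congr 1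
      ring
    rw [e1]
    apply mul_le_mul_of_nonneg_left _ (by positivity)
    have e2 : ((48 * C * ((n + 1) / B) : ℕ) : ℝ) ≤ n * (96 * C / B) := by
      have e3 : (((n + 1) / B : ℕ) : ℝ) ≤ ((n:ℝ) + 1) / B := by
        have := Nat.cast_div_le (α := ℝ) (m := n + 1) (n := B)
        push_cast at this
        exact this
      have e4 : ((n:ℝ) + 1) / B ≤ 2 * n / B := by
        gcongr
        linarith
      push_cast
      calc (48:ℝ) * C * (((n + 1) / B : ℕ) : ℝ) ≤ 48 * C * (2 * n / B) := by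
            gcongr
            exact e3.trans e4
        _ = n * (96 * C / B) := by ring
    calc (2:ℝ) ^ (48 * C * ((n + 1) / B)) = (2:ℝ) ^ (((48 * C * ((n + 1) / B) : ℕ) : ℝ)) := by
          rw [Real.rpow_natCast]
      _ ≤ (2:ℝ) ^ ((n:ℝ) * (96 * C / B)) :=
          Real.rpow_le_rpow_of_exponent_le (by norm_num) e2
      _ = ((2:ℝ) ^ (n:ℝ)) ^ (96 * (C:ℝ) / B) := by rw [Real.rpow_mul (by norm_num)]
      _ ≤ (N:ℝ) ^ (96 * (C:ℝ) / B) := by
          apply Real.rpow_le_rpow (by positivity)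
          · rw [Real.rpow_natCast]
            exact_mod_cast Nat.pow_log_le_self 2 (by omega)
          · positivity
      _ ≤ (N:ℝ) ^ (KK C / B) := by
          apply Real.rpow_le_rpow_of_exponent_le (by linarith)
          gcongr
  have hnsq : ((n:ℝ) + 1) ^ 2 ≤ 4 * (Real.logb 2 N) ^ 2 := by
    have : (n:ℝ) + 1 ≤ 2 * Real.logb 2 N := by linarith
    calc ((n:ℝ) + 1) ^ 2 ≤ (2 * Real.logb 2 N) ^ 2 := by gcongr
      _ = 4 * (Real.logb 2 N) ^ 2 := by ring
  calc (N:ℝ) ^ 2 ≤ 10 * ((2:ℝ) ^ (12 * C * ((n + 1) / B + 3))) ^ 4 * T * ((n:ℝ) + 1) ^ 2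
      * (s * B) := hcast
    _ ≤ 10 * (2 ^ (144 * C) * (N:ℝ) ^ (KK C / B)) * T * (4 * (Real.logb 2 N) ^ 2) * (s * B) := by
        gcongr
    _ = KK C * (N : ℝ) ^ (KK C / B) * T * (Real.logb 2 N) ^ 2 * (s * B) := by
        unfold KK
        ring

/-- Blocks of at least `ε log N / log log N` words. -/
theorem polylog_bound {C : ℕ} (hC : 1 ≤ C) {ε : ℝ} (hε : 0 < ε) {N T B s : ℕ} (hN : 3 ≤ N)
    (hT : 1 ≤ T) (hB : ε * Real.log N ≤ B * Real.log (Real.log N)) (H : Solvable N C T B s) :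
    (N : ℝ) ^ 2 ≤ (KK C / Real.log 2 ^ 2) * T * (Real.log N) ^ (KK C / ε + 2) * (s * B) := by
  have hNr : (3:ℝ) ≤ N := by exact_mod_cast hN
  have hlog : 1 < Real.log N := by
    rw [Real.lt_log_iff_exp_lt (by linarith)]
    linarith [Real.exp_one_lt_d9]
  have hlog0 : 0 < Real.log N := by linarith
  have hll : 0 < Real.log (Real.log N) := Real.log_pos hlog
  have hB1 : 1 ≤ B := by
    by_contra hcon
    have : B = 0 := by omega
    rw [this] at hB
    have : 0 < ε * Real.log N := by positivity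
    simp at hB
    linarith
  have hBr : (0:ℝ) < B := by exact_mod_cast hB1
  have hKpos : 0 < KK C := by unfold KK; positivity
  have h1 := real_bound H (by omega) hC hT hB1
  have h2 : (N : ℝ) ^ (KK C / B) ≤ (Real.log N) ^ (KK C / ε) := by
    rw [Real.rpow_def_of_pos (by linarith), Real.rpow_def_of_pos hlog0]
    apply Real.exp_le_exp.2
    have h3 : Real.log N / B ≤ Real.log (Real.log N) / ε := by
      rw [div_le_div_iff₀ hBr hε]
      linarith
    calc Real.log N * (KK C / B) = KK C * (Real.log N / B) := by ring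
      _ ≤ KK C * (Real.log (Real.log N) / ε) := by gcongr
      _ = Real.log (Real.log N) * (KK C / ε) := by ring
  have h4 : (Real.logb 2 N) ^ 2 = (Real.log N) ^ 2 / Real.log 2 ^ 2 := by
    unfold Real.logb
    rw [div_pow]
  have h5 : (Real.log N) ^ (KK C / ε + 2) = (Real.log N) ^ (KK C / ε) * (Real.log N) ^ 2 := by
    rw [Real.rpow_add hlog0]
    congr 1
    exact_mod_cast Real.rpow_natCast (Real.log N) 2
  rw [h4] at h1
  rw [h5]
  calc (N : ℝ) ^ 2 ≤ _ := h1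
    _ ≤ KK C * (Real.log N) ^ (KK C / ε) * T * ((Real.log N) ^ 2 / Real.log 2 ^ 2) * (s * B) := by
        gcongr
    _ = _ := by ring

end Pool.Agent.SetIntBlocked
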